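import Pool.Agent.Helper43K9.PS.Trees

/-!
Packing of parity subgraphs: a multigraph all of whose odd cuts have at least `2 k + 1` edges has
`k` pairwise disjoint parity subgraphs.
-/

set_option autoImplicit false
set_option linter.unusedSectionVars false
set_option linter.unusedDecidableInType false
set_option linter.unusedFintypeInType false

namespace Pool.Agent.Helper43K9.PS

open Finset
open Pool.Agent.X42.FlowT2 (Spans)

variable {V E : Type} [Fintype V] [DecidableEq V] [Fintype E] [DecidableEq E]

/-- the edges with exactly one end in `X` -/
def dl (src dst : E → V) (X : Finset V) : Finset E := univ.filter (fun e => ¬ (src e ∈ X ↔ dst e ∈ X))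

/-- the parities of the degrees in the subgraph `H` -/
def par (src dst : E → V) (H : Finset E) (v : V) : ZMod 2 :=
  ∑ e ∈ H, ((if src e = v then 1 else 0) + (if dst e = v then 1 else 0))

/-- contribution of an edge to a cut -/
def ct (src dst : E → V) (e : E) (X : Finset V) : ℕ := if (src e ∈ X ↔ dst e ∈ X) then 0 else 1

lemma card_dl (src dst : E → V) (X : Finset V) : (dl src dst X).card = ∑ e, ct src dst e X := by
  unfold dl ct
  rw [Finset.card_filter]
  refine Finset.sum_congr rfl fun e _ => ?_
  by_cases h : (src e ∈ X ↔ dst e ∈ X)
  · rw [if_pos h, if_neg (not_not.2 h)]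
  · rw [if_neg h, if_pos h]

/-- Restating the packing of spanning sets inside a set of vertices. -/
theorem trees_in (src dst : E → V) (k : ℕ) (hk : 1 ≤ k) (X : Finset V) (hX : X.Nonempty)
    (h1 : (dl src dst X).card < 2 * k)
    (h2 : ∀ Y : Finset V, Y.Nonempty → Y ⊂ X → 2 * k ≤ (dl src dst Y).card) :
    ∃ I : Fin k → Finset E, (∀ i j, i ≠ j → Disjoint (I i) (I j)) ∧
      (∀ i, ∀ e ∈ I i, src e ∈ X ∧ dst e ∈ X) ∧
      ∀ i, ∀ b : V → ZMod 2, (∀ v, v ∉ X → b v = 0) → ∑ v ∈ X, b v = 0 →
        ∃ J ⊆ I i, ∀ v, par src dst J v = b v := by
  classical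
  let src' : {e : E // src e ∈ X ∧ dst e ∈ X} → {v : V // v ∈ X} := fun e => ⟨src e.1, e.2.1⟩
  let dst' : {e : E // src e ∈ X ∧ dst e ∈ X} → {v : V // v ∈ X} := fun e => ⟨dst e.1, e.2.2⟩
  have : Nonempty {v : V // v ∈ X} := ⟨⟨hX.choose, hX.choose_spec⟩⟩
  obtain ⟨I, hd, hI⟩ := k_trees k hk src' dst' (by
    intro c π hπ
    rcases Nat.lt_or_ge 1 c with hc | hc
    · let Y : Fin c → Finset V := fun j => univ.filter (fun v => ∃ h : v ∈ X, π ⟨v, h⟩ = j)
      have hY1 : ∀ j, 2 * k ≤ (dl src dst (Y j)).card := by
        intro j
        apply h2
        · obtain ⟨v, hv⟩ := hπ j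
          exact ⟨v.1, by simp only [Y, mem_filter, mem_univ, true_and]; exact ⟨v.2, hv⟩⟩
        · rw [Finset.ssubset_iff_of_subset (by
            intro v hv
            simp only [Y, mem_filter, mem_univ, true_and] at hv
            exact hv.1)]
          obtain ⟨j', hj'⟩ : ∃ j' : Fin c, j' ≠ j := by
            have : Nontrivial (Fin c) := Fin.nontrivial_iff_two_le.2 hc
            exact exists_ne j
          obtain ⟨v, hv⟩ := hπ j'
          refine ⟨v.1, v.2, ?_⟩
          simp only [Y, mem_filter, mem_univ, true_and, not_exists]
          intro h h3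
          apply hj'
          rw [← hv, ← h3]
      have hsum : ∑ j, (dl src dst (Y j)).card ≤
          2 * ((univ : Finset {e : E // src e ∈ X ∧ dst e ∈ X}).filter
            (fun e => π (src' e) ≠ π (dst' e))).card + (dl src dst X).card := by
        have e1 : ((univ : Finset {e : E // src e ∈ X ∧ dst e ∈ X}).filter
            (fun e => π (src' e) ≠ π (dst' e))).card = ∑ e : E,
            (if ∃ h : src e ∈ X ∧ dst e ∈ X, π (src' ⟨e, h⟩) ≠ π (dst' ⟨e, h⟩) then 1 else 0) := by
          rw [← Finset.card_filter]
          have : (univ.filter (fun e : E => ∃ h : src e ∈ X ∧ dst e ∈ X,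
              π (src' ⟨e, h⟩) ≠ π (dst' ⟨e, h⟩))) =
              ((univ : Finset {e : E // src e ∈ X ∧ dst e ∈ X}).filter
                (fun e => π (src' e) ≠ π (dst' e))).map (Function.Embedding.subtype _) := by
            ext e
            simp only [mem_filter, mem_univ, true_and, mem_map, Function.Embedding.coe_subtype,
              Subtype.exists, exists_and_right, exists_eq_right]
          rw [this, Finset.card_map]
        rw [e1, card_dl, Finset.mul_sum]
        simp only [card_dl]
        rw [Finset.sum_comm, ← Finset.sum_add_distrib]
        refine Finset.sum_le_sum fun e _ => ?_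
        -- pointwise estimate
        by_cases hs : src e ∈ X <;> by_cases ht : dst e ∈ X
        · by_cases hπe : π (src' ⟨e, hs, ht⟩) = π (dst' ⟨e, hs, ht⟩)
          · have : ∑ j, ct src dst e (Y j) = 0 := by
              apply Finset.sum_eq_zero
              intro j _
              unfold ct
              rw [if_pos]
              simp only [Y, mem_filter, mem_univ, true_and]
              constructor
              · rintro ⟨h, h'⟩
                exact ⟨ht, by rw [← h']; exact hπe.symm⟩
              · rintro ⟨h, h'⟩
                exact ⟨hs, by rw [← h']; exact hπe⟩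
            rw [this]
            exact Nat.zero_le _
          · rw [if_pos ⟨⟨hs, ht⟩, hπe⟩]
            have : ∑ j, ct src dst e (Y j) ≤ ∑ j : Fin c,
                ((if π ⟨src e, hs⟩ = j then 1 else 0) + (if π ⟨dst e, ht⟩ = j then 1 else 0)) := by
              refine Finset.sum_le_sum fun j _ => ?_
              unfold ct
              simp only [Y, mem_filter, mem_univ, true_and]
              by_cases a : π ⟨src e, hs⟩ = j <;> by_cases b : π ⟨dst e, ht⟩ = j <;>
                simp [a, b, hs, ht]
            refine this.trans ?_
            rw [Finset.sum_add_distrib, Finset.sum_ite_eq, Finset.sum_ite_eq]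
            simp
        · have : ∑ j, ct src dst e (Y j) ≤ ∑ j : Fin c,
                (if π ⟨src e, hs⟩ = j then 1 else 0) := by
              refine Finset.sum_le_sum fun j _ => ?_
              unfold ct
              simp only [Y, mem_filter, mem_univ, true_and]
              by_cases a : π ⟨src e, hs⟩ = j <;> simp [a, hs, ht]
          refine this.trans ?_
          rw [Finset.sum_ite_eq]
          unfold ct
          simp [hs, ht]
        · have : ∑ j, ct src dst e (Y j) ≤ ∑ j : Fin c,
                (if π ⟨dst e, ht⟩ = j then 1 else 0) := by
              refine Finset.sum_le_sum fun j _ => ?_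
              unfold ct
              simp only [Y, mem_filter, mem_univ, true_and]
              by_cases a : π ⟨dst e, ht⟩ = j <;> simp [a, hs, ht]
          refine this.trans ?_
          rw [Finset.sum_ite_eq]
          unfold ct
          simp [hs, ht]
        · have : ∑ j, ct src dst e (Y j) = 0 := by
            apply Finset.sum_eq_zero
            intro j _
            unfold ct
            rw [if_pos]
            simp only [Y, mem_filter, mem_univ, true_and]
            constructor
            · rintro ⟨h, h'⟩
              exact absurd h hs
            · rintro ⟨h, h'⟩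
              exact absurd h ht
          rw [this]
          exact Nat.zero_le _
      have hlow : ∑ _j : Fin c, 2 * k ≤ ∑ j, (dl src dst (Y j)).card :=
        Finset.sum_le_sum fun j _ => hY1 j
      rw [Finset.sum_const, Finset.card_univ, Fintype.card_fin, smul_eq_mul] at hlow
      have e3 : c * (2 * k) = 2 * (k * c) := by ring
      omega
    · have : k * c ≤ k * 1 := Nat.mul_le_mul_left k hc
      omega)
  refine ⟨fun i => (I i).map (Function.Embedding.subtype _), ?_, ?_, ?_⟩
  · intro i j hij
    rw [Finset.disjoint_map]
    exact hd i j hij
  · intro i e he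
    rw [Finset.mem_map] at he
    obtain ⟨e', -, rfl⟩ := he
    exact e'.2
  · intro i b hb0 hbs
    obtain ⟨c, hc⟩ := hI i (fun v => b v.1) (by
      rw [← hbs]
      exact Finset.sum_coe_sort X b)
    refine ⟨((I i).filter (fun e => c e = 1)).map (Function.Embedding.subtype _), ?_, ?_⟩
    · exact Finset.map_subset_map.2 (Finset.filter_subset _ _)
    · intro v
      unfold par
      rw [Finset.sum_map, Finset.sum_filter]
      by_cases hv : v ∈ X
      · rw [← hc ⟨v, hv⟩]
        refine Finset.sum_congr rfl fun e _ => ?_
        have hc2 : c e = 0 ∨ c e = 1 := by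
          generalize c e = z
          revert z
          decide
        simp only [Function.Embedding.coe_subtype, src', dst', Subtype.mk.injEq]
        rcases hc2 with h0 | h0
        · rw [h0]
          simp
        · rw [h0, if_pos rfl]
          congr
      · rw [hb0 v hv]
        apply Finset.sum_eq_zero
        intro e _
        have h3 : src e.1 ≠ v := fun h => hv (h ▸ e.2.1)
        have h4 : dst e.1 ≠ v := fun h => hv (h ▸ e.2.2)
        simp [h3, h4]


end Pool.Agent.Helper43K9.PS
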