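import Pool.Agent.Helper43K9.PS.Cuts

/-!
The two induction steps: splitting off two edges, and contracting a set of vertices.
-/

set_option autoImplicit false
set_option linter.unusedSectionVars false
set_option linter.unusedDecidableInType false
set_option linter.unusedFintypeInType false

namespace Pool.Agent.Helper43K9.PS

open Finset

variable {V E : Type} [Fintype V] [DecidableEq V] [Fintype E] [DecidableEq E]

lemma z2 (a : ZMod 2) : a + a = 0 := CharTwo.add_self_eq_zero a

/-- the boundary of an edge -/
def bd (src dst : E → V) (e : E) (v : V) : ZMod 2 :=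
  (if src e = v then 1 else 0) + (if dst e = v then 1 else 0)

lemma par_eq (src dst : E → V) (H : Finset E) (v : V) :
    par src dst H v = ∑ e, if e ∈ H then bd src dst e v else 0 := by
  unfold par bd
  rw [Finset.sum_ite_mem, Finset.univ_inter]

lemma sum_two {M : Type} [AddCommMonoid M] (f : E → M) {e₁ e₂ : E} (h : e₁ ≠ e₂) :
    ∑ e, f e = f e₁ + (f e₂ + ∑ e ∈ (univ.erase e₁).erase e₂, f e) := by
  rw [← Finset.add_sum_erase univ f (Finset.mem_univ e₁),
    ← Finset.add_sum_erase (univ.erase e₁) f (Finset.mem_erase.2 ⟨h.symm, Finset.mem_univ e₂⟩)]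

/-- the other end of `e` -/
def oth (src dst : E → V) (v : V) (e : E) : V := if src e = v then dst e else src e

lemma mem_dl_single (src dst : E → V) (v : V) (e : E) :
    e ∈ dl src dst {v} ↔ (src e = v ∧ dst e ≠ v) ∨ (src e ≠ v ∧ dst e = v) := by
  unfold dl
  simp only [mem_filter, mem_univ, true_and, mem_singleton]
  tauto

lemma ct_eq_oth (src dst : E → V) (v : V) (e : E) (he : e ∈ dl src dst {v}) (Z : Finset V) :
    ct src dst e Z = if (v ∈ Z ↔ oth src dst v e ∈ Z) then 0 else 1 := by
  unfold ct oth
  rcases (mem_dl_single src dst v e).1 he with ⟨h1, h2⟩ | ⟨h1, h2⟩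
  · rw [if_pos h1, h1]
  · rw [if_neg h1, h2]
    by_cases a : src e ∈ Z <;> by_cases b : v ∈ Z <;> simp [a, b]

lemma bd_eq_oth (src dst : E → V) (v : V) (e : E) (he : e ∈ dl src dst {v}) (u : V) :
    bd src dst e u = (if v = u then 1 else 0) + (if oth src dst v e = u then 1 else 0) := by
  unfold bd oth
  rcases (mem_dl_single src dst v e).1 he with ⟨h1, h2⟩ | ⟨h1, h2⟩
  · rw [if_pos h1, h1]
  · rw [if_neg h1, h2, add_comm]

lemma dl_compl (src dst : E → V) (Z : Finset V) : dl src dst Zᶜ = dl src dst Z := by
  unfold dl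
  apply Finset.filter_congr
  intro e _
  rw [mem_compl, mem_compl]
  tauto

/-- number of the edges which are not loops -/
def nl (src dst : E → V) : ℕ := (univ.filter (fun e => src e ≠ dst e)).card

theorem split_step (src dst : E → V) (k : ℕ)
    (hodd : ∀ X : Finset V, Odd (dl src dst X).card → 2 * k + 1 ≤ (dl src dst X).card)
    (v : V) (e₁ e₂ : E) (he₁ : e₁ ∈ dl src dst {v}) (he₂ : e₂ ∈ dl src dst {v}) (hne : e₁ ≠ e₂)
    (hgood : ∀ X : Finset V, v ∉ X → (src e₁ ∈ X ∨ dst e₁ ∈ X) → (src e₂ ∈ X ∨ dst e₂ ∈ X) →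
        Odd (dl src dst X).card → 2 * k + 3 ≤ (dl src dst X).card) :
    ∃ src' dst' : E → V, nl src' dst' < nl src dst ∧
      (∀ X : Finset V, Odd (dl src' dst' X).card → 2 * k + 1 ≤ (dl src' dst' X).card) ∧
      ∀ H' : Fin k → Finset E, (∀ i j, i ≠ j → Disjoint (H' i) (H' j)) →
        (∀ i u, par src' dst' (H' i) u = par src' dst' univ u) →
        ∃ H : Fin k → Finset E, (∀ i j, i ≠ j → Disjoint (H i) (H j)) ∧
          ∀ i u, par src dst (H i) u = par src dst univ u := by
  classical
  set x := oth src dst v e₁ with hx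
  set y := oth src dst v e₂ with hy
  let src' : E → V := Function.update (Function.update src e₁ x) e₂ v
  let dst' : E → V := Function.update (Function.update dst e₁ y) e₂ v
  have s1 : src' e₁ = x := by
    simp only [src']
    rw [Function.update_of_ne hne, Function.update_self]
  have s2 : src' e₂ = v := by
    simp only [src']
    rw [Function.update_self]
  have s3 : ∀ e, e ≠ e₁ → e ≠ e₂ → src' e = src e := by
    intro e h1 h2
    simp only [src']
    rw [Function.update_of_ne h2, Function.update_of_ne h1]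
  have d1 : dst' e₁ = y := by
    simp only [dst']
    rw [Function.update_of_ne hne, Function.update_self]
  have d2 : dst' e₂ = v := by
    simp only [dst']
    rw [Function.update_self]
  have d3 : ∀ e, e ≠ e₁ → e ≠ e₂ → dst' e = dst e := by
    intro e h1 h2
    simp only [dst']
    rw [Function.update_of_ne h2, Function.update_of_ne h1]
  have hend1 : ∀ X : Finset V, x ∈ X → (src e₁ ∈ X ∨ dst e₁ ∈ X) := by
    intro X h
    rw [hx] at h
    unfold oth at h
    split_ifs at h with h1
    · exact Or.inr h
    · exact Or.inl h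
  have hend2 : ∀ X : Finset V, y ∈ X → (src e₂ ∈ X ∨ dst e₂ ∈ X) := by
    intro X h
    rw [hy] at h
    unfold oth at h
    split_ifs at h with h1
    · exact Or.inr h
    · exact Or.inl h
  -- cuts
  have hcut : ∀ Z : Finset V, (dl src dst Z).card = (dl src' dst' Z).card +
      (if (v ∉ Z ∧ x ∈ Z ∧ y ∈ Z) ∨ (v ∈ Z ∧ x ∉ Z ∧ y ∉ Z) then 2 else 0) := by
    intro Z
    rw [card_dl, card_dl, sum_two (fun e => ct src dst e Z) hne,
      sum_two (fun e => ct src' dst' e Z) hne]
    have q : ∑ e ∈ (univ.erase e₁).erase e₂, ct src dst e Z =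
        ∑ e ∈ (univ.erase e₁).erase e₂, ct src' dst' e Z := by
      refine Finset.sum_congr rfl fun e he => ?_
      rw [mem_erase, mem_erase] at he
      unfold ct
      rw [s3 e he.2.1 he.1, d3 e he.2.1 he.1]
    rw [q, ct_eq_oth src dst v e₁ he₁ Z, ct_eq_oth src dst v e₂ he₂ Z, ← hx, ← hy]
    have q1 : ct src' dst' e₁ Z = if (x ∈ Z ↔ y ∈ Z) then 0 else 1 := by
      unfold ct
      rw [s1, d1]
    have q2 : ct src' dst' e₂ Z = 0 := by
      unfold ct
      rw [s2, d2, if_pos Iff.rfl]
    rw [q1, q2]
    by_cases a : v ∈ Z <;> by_cases b : x ∈ Z <;> by_cases c : y ∈ Z <;> simp [a, b, c] <;> omega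
  refine ⟨src', dst', ?_, ?_, ?_⟩
  · -- fewer edges which are not loops
    unfold nl
    apply Finset.card_lt_card
    rw [Finset.ssubset_iff_of_subset]
    · refine ⟨e₂, ?_, ?_⟩
      · rw [mem_filter]
        refine ⟨mem_univ _, ?_⟩
        rcases (mem_dl_single src dst v e₂).1 he₂ with ⟨h1, h2⟩ | ⟨h1, h2⟩
        · rw [h1]
          exact h2.symm
        · rw [h2]
          exact h1
      · rw [mem_filter, s2, d2]
        simp
    · intro e he
      rw [mem_filter] at he ⊢
      refine ⟨mem_univ _, ?_⟩
      by_cases h1 : e = e₁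
      · rw [h1]
        rcases (mem_dl_single src dst v e₁).1 he₁ with ⟨h1, h2⟩ | ⟨h1, h2⟩
        · rw [h1]
          exact h2.symm
        · rw [h2]
          exact h1
      · by_cases h2 : e = e₂
        · rw [h2, s2, d2] at he
          exact absurd rfl he.2
        · rw [s3 e h1 h2, d3 e h1 h2] at he
          exact he.2
  · intro Z hZ
    have h1 := hcut Z
    split_ifs at h1 with h2
    · have h3 : Odd (dl src dst Z).card := by
        rw [h1]
        rw [Nat.odd_iff] at hZ ⊢
        omega
      rcases h2 with ⟨a, b, c⟩ | ⟨a, b, c⟩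
      · have h4 := hgood Z a (hend1 Z b) (hend2 Z c) h3
        omega
      · have h4 := hgood Zᶜ (by rw [mem_compl]; exact not_not.2 a) (hend1 _ (by
          rw [mem_compl]; exact b)) (hend2 _ (by rw [mem_compl]; exact c)) (by
          rw [dl_compl]; exact h3)
        rw [dl_compl] at h4
        omega
    · rw [add_zero] at h1
      rw [← h1] at hZ ⊢
      exact hodd Z hZ
  · intro H' hd hp
    let H : Fin k → Finset E := fun i => if e₁ ∈ H' i then insert e₂ (H' i) else (H' i).erase e₂
    have hm1 : ∀ i, e₁ ∈ H i ↔ e₁ ∈ H' i := by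
      intro i
      simp only [H]
      split_ifs with h
      · rw [mem_insert]
        tauto
      · rw [mem_erase]
        tauto
    have hm2 : ∀ i, e₂ ∈ H i ↔ e₁ ∈ H' i := by
      intro i
      simp only [H]
      split_ifs with h
      · rw [mem_insert]
        tauto
      · rw [mem_erase]
        tauto
    have hm3 : ∀ i e, e ≠ e₂ → (e ∈ H i ↔ e ∈ H' i) := by
      intro i e he
      simp only [H]
      split_ifs with h
      · rw [mem_insert]
        tauto
      · rw [mem_erase]
        tauto
    -- parities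
    have hbd : ∀ u, bd src dst e₁ u + bd src dst e₂ u = bd src' dst' e₁ u := by
      intro u
      rw [bd_eq_oth src dst v e₁ he₁, bd_eq_oth src dst v e₂ he₂, ← hx, ← hy]
      have : bd src' dst' e₁ u = (if x = u then 1 else 0) + (if y = u then 1 else 0) := by
        unfold bd
        rw [s1, d1]
      rw [this]
      linear_combination z2 (if v = u then (1 : ZMod 2) else 0)
    have hbd2 : ∀ u, bd src' dst' e₂ u = 0 := by
      intro u
      unfold bd
      rw [s2, d2]
      exact z2 _
    have hbd3 : ∀ e u, e ≠ e₁ → e ≠ e₂ → bd src' dst' e u = bd src dst e u := by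
      intro e u h1 h2
      unfold bd
      rw [s3 e h1 h2, d3 e h1 h2]
    have key : ∀ (A A' : Finset E), (e₁ ∈ A ↔ e₁ ∈ A') → (e₂ ∈ A ↔ e₁ ∈ A') →
        (∀ e, e ≠ e₂ → (e ∈ A ↔ e ∈ A')) → ∀ u, par src dst A u = par src' dst' A' u := by
      intro A A' h1 h2 h3 u
      rw [par_eq, par_eq, sum_two _ hne, sum_two (fun e => if e ∈ A' then bd src' dst' e u else 0)
        hne]
      have q : ∑ e ∈ (univ.erase e₁).erase e₂, (if e ∈ A then bd src dst e u else 0) =
          ∑ e ∈ (univ.erase e₁).erase e₂, (if e ∈ A' then bd src' dst' e u else 0) := by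
        refine Finset.sum_congr rfl fun e he => ?_
        rw [mem_erase, mem_erase] at he
        rw [hbd3 e u he.2.1 he.1]
        simp only [h3 e he.1]
      simp only [q, hbd2, ← hbd, h1, h2]
      split_ifs <;> ring
    refine ⟨H, ?_, ?_⟩
    · intro i j hij
      rw [Finset.disjoint_left]
      intro e hi hj
      by_cases h : e = e₂
      · rw [h, hm2] at hi hj
        exact Finset.disjoint_left.1 (hd i j hij) hi hj
      · rw [hm3 _ e h] at hi hj
        exact Finset.disjoint_left.1 (hd i j hij) hi hj
    · intro i u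
      rw [key (H i) (H' i) (hm1 i) (hm2 i) (hm3 i) u, hp i u]
      symm
      apply key
      · simp
      · simp
      · simp

/-- contraction of the set `X` to its element `x₀` -/
def con (X : Finset V) (x₀ : V) (v : V) : V := if v ∈ X then x₀ else v

lemma con_mem {X : Finset V} {x₀ : V} (h0 : x₀ ∈ X) (u : V) : con X x₀ u = x₀ ↔ u ∈ X := by
  unfold con
  split_ifs with h
  · simp [h]
  · constructor
    · intro h1
      rw [h1] at h
      exact absurd h0 h
    · intro h1
      exact absurd h1 h

lemma con_notMem {X : Finset V} {x₀ : V} (h0 : x₀ ∈ X) {v : V} (hv : v ∉ X) (u : V) :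
    con X x₀ u = v ↔ u = v := by
  unfold con
  split_ifs with h
  · constructor
    · intro h1
      rw [← h1] at hv
      exact absurd h0 hv
    · intro h1
      rw [h1] at h
      exact absurd h hv
  · exact Iff.rfl

lemma par_con_notMem (src dst : E → V) {X : Finset V} {x₀ : V} (h0 : x₀ ∈ X) {v : V} (hv : v ∉ X)
    (H : Finset E) :
    par (fun e => con X x₀ (src e)) (fun e => con X x₀ (dst e)) H v = par src dst H v := by
  unfold par
  refine Finset.sum_congr rfl fun e _ => ?_
  simp only [con_notMem h0 hv]

lemma par_con_mem (src dst : E → V) {X : Finset V} {x₀ : V} (h0 : x₀ ∈ X) (H : Finset E) :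
    par (fun e => con X x₀ (src e)) (fun e => con X x₀ (dst e)) H x₀ =
      ∑ v ∈ X, par src dst H v := by
  unfold par
  rw [Finset.sum_comm]
  refine Finset.sum_congr rfl fun e _ => ?_
  simp only [con_mem h0]
  rw [Finset.sum_add_distrib, Finset.sum_ite_eq, Finset.sum_ite_eq]

lemma dl_con (src dst : E → V) (X : Finset V) (x₀ : V) (Z : Finset V) :
    dl (fun e => con X x₀ (src e)) (fun e => con X x₀ (dst e)) Z =
      dl src dst (univ.filter (fun v => con X x₀ v ∈ Z)) := by
  unfold dl
  apply Finset.filter_congr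
  intro e _
  simp only [mem_filter, mem_univ, true_and]

lemma par_union (src dst : E → V) {A B : Finset E} (h : Disjoint A B) (v : V) :
    par src dst (A ∪ B) v = par src dst A v + par src dst B v := by
  unfold par
  exact Finset.sum_union h

theorem contract_step (src dst : E → V) (k : ℕ) (X : Finset V) (x₀ : V) (h0 : x₀ ∈ X)
    (I : Fin k → Finset E) (hId : ∀ i j, i ≠ j → Disjoint (I i) (I j))
    (hIX : ∀ i, ∀ e ∈ I i, src e ∈ X ∧ dst e ∈ X)
    (hI : ∀ i, ∀ b : V → ZMod 2, (∀ v, v ∉ X → b v = 0) → ∑ v ∈ X, b v = 0 →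
        ∃ J ⊆ I i, ∀ v, par src dst J v = b v)
    (H' : Fin k → Finset E) (hd : ∀ i j, i ≠ j → Disjoint (H' i) (H' j))
    (hp : ∀ i v, par (fun e => con X x₀ (src e)) (fun e => con X x₀ (dst e)) (H' i) v =
      par (fun e => con X x₀ (src e)) (fun e => con X x₀ (dst e)) univ v) :
    ∃ H : Fin k → Finset E, (∀ i j, i ≠ j → Disjoint (H i) (H j)) ∧
      ∀ i v, par src dst (H i) v = par src dst univ v := by
  classical
  let F : Fin k → Finset E := fun i => (H' i).filter (fun e => ¬ (src e ∈ X ∧ dst e ∈ X))
  have hF : ∀ i v, par (fun e => con X x₀ (src e)) (fun e => con X x₀ (dst e)) (F i) v =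
      par (fun e => con X x₀ (src e)) (fun e => con X x₀ (dst e)) (H' i) v := by
    intro i v
    unfold par
    simp only [F]
    rw [Finset.sum_filter]
    refine Finset.sum_congr rfl fun e _ => ?_
    by_cases h : src e ∈ X ∧ dst e ∈ X
    · rw [if_neg (not_not.2 h)]
      simp only [con, if_pos h.1, if_pos h.2, z2]
    · rw [if_pos h]
  have hex : ∀ i, ∃ J ⊆ I i, ∀ v, par src dst J v = par src dst (F i) v + par src dst univ v := by
    intro i
    apply hI i
    · intro v hv
      rw [← par_con_notMem src dst h0 hv (F i), hF, hp, par_con_notMem src dst h0 hv, z2]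
    · rw [Finset.sum_add_distrib, ← par_con_mem src dst h0, ← par_con_mem src dst h0, hF, hp, z2]
  choose J hJ hJp using hex
  have hdis : ∀ i j, Disjoint (F i) (J j) := by
    intro i j
    rw [Finset.disjoint_left]
    intro e h1 h2
    simp only [F, mem_filter] at h1
    exact h1.2 (hIX j e (hJ j h2))
  refine ⟨fun i => F i ∪ J i, ?_, ?_⟩
  · intro i j hij
    rw [Finset.disjoint_union_left, Finset.disjoint_union_right, Finset.disjoint_union_right]
    refine ⟨⟨?_, hdis i j⟩, (hdis j i).symm, ?_⟩
    · exact Finset.disjoint_of_subset_left (Finset.filter_subset _ _)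
        (Finset.disjoint_of_subset_right (Finset.filter_subset _ _) (hd i j hij))
    · exact Finset.disjoint_of_subset_left (hJ i)
        (Finset.disjoint_of_subset_right (hJ j) (hId i j hij))
  · intro i v
    rw [par_union src dst (hdis i i), hJp, ← add_assoc, z2, zero_add]

end Pool.Agent.Helper43K9.PS
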