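import Pool.Agent.Helper43K9.PS.Split
import Pool.Agent.Helper43K9.PS.Steps

/-!
Packing of parity subgraphs: a multigraph all of whose odd cuts have at least `2 k + 1` edges has
`k` pairwise disjoint parity subgraphs.
-/

set_option autoImplicit false
set_option linter.unusedSectionVars false
set_option linter.unusedDecidableInType false
set_option linter.unusedFintypeInType false

namespace Pool.Agent.Helper43K9.PS

open Finset

variable {V E : Type} [Fintype V] [DecidableEq V] [Fintype E] [DecidableEq E]

theorem packing_pos (k : ℕ) (hk : 1 ≤ k) : ∀ (n : ℕ) (src dst : E → V), nl src dst ≤ n →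
    (∀ X : Finset V, Odd (dl src dst X).card → 2 * k + 1 ≤ (dl src dst X).card) →
    ∃ H : Fin k → Finset E, (∀ i j, i ≠ j → Disjoint (H i) (H j)) ∧
      ∀ i v, par src dst (H i) v = par src dst univ v := by
  classical
  intro n
  induction n with
  | zero =>
    intro src dst hn _
    have h1 : ∀ e, src e = dst e := by
      intro e
      by_contra hcon
      have : e ∈ univ.filter (fun e => src e ≠ dst e) := by
        rw [mem_filter]
        exact ⟨mem_univ _, hcon⟩
      have h2 := Finset.card_pos.2 ⟨e, this⟩
      unfold nl at hn
      omega
    have h2 : ∀ H v, par src dst H v = 0 := by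
      intro H v
      unfold par
      apply Finset.sum_eq_zero
      intro e _
      simp only [h1 e, z2]
    exact ⟨fun _ => ∅, fun i j _ => Finset.disjoint_empty_left _, fun i v => by rw [h2, h2]⟩
  | succ n ih =>
    intro src dst hn hodd
    by_cases hn' : nl src dst ≤ n
    · exact ih src dst hn' hodd
    -- the vertices which are not isolated
    let N : Finset V := univ.filter (fun v => 0 < (dl src dst {v}).card)
    have hN0 : (dl src dst N).card = 0 := by
      rw [Finset.card_eq_zero, Finset.eq_empty_iff_forall_notMem]
      intro e he
      unfold dl at he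
      rw [mem_filter] at he
      apply he.2
      by_cases h : src e = dst e
      · rw [h]
      · have h1 : src e ∈ N := by
          simp only [N, mem_filter, mem_univ, true_and]
          refine Finset.card_pos.2 ⟨e, (mem_dl_single src dst _ e).2 (Or.inl ⟨rfl, ?_⟩)⟩
          exact fun h' => h h'.symm
        have h2 : dst e ∈ N := by
          simp only [N, mem_filter, mem_univ, true_and]
          exact Finset.card_pos.2 ⟨e, (mem_dl_single src dst _ e).2 (Or.inr ⟨h, rfl⟩)⟩
        exact ⟨fun _ => h2, fun _ => h1⟩
    have hNne : N.Nonempty := by
      obtain ⟨e, he⟩ : (univ.filter (fun e => src e ≠ dst e)).Nonempty := by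
        rw [← Finset.card_pos]
        unfold nl at hn'
        omega
      rw [mem_filter] at he
      refine ⟨src e, ?_⟩
      simp only [N, mem_filter, mem_univ, true_and]
      refine Finset.card_pos.2 ⟨e, (mem_dl_single src dst _ e).2 (Or.inl ⟨rfl, ?_⟩)⟩
      exact fun h' => he.2 h'.symm
    let P : Finset V → Prop := fun X => X.Nonempty ∧ X ⊆ N ∧ (dl src dst X).card < 2 * k
    obtain ⟨X, hX, hmin⟩ := Finset.exists_min_image (univ.filter P) Finset.card
      ⟨N, by
        rw [mem_filter]
        exact ⟨mem_univ _, hNne, Finset.Subset.refl _, by rw [hN0]; omega⟩⟩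
    rw [mem_filter] at hX
    obtain ⟨-, hXne, hXN, hXk⟩ := hX
    have hsub : ∀ Y : Finset V, Y.Nonempty → Y ⊂ X → 2 * k ≤ (dl src dst Y).card := by
      intro Y hY hYX
      by_contra hcon
      push Not at hcon
      have h1 := hmin Y (by
        rw [mem_filter]
        exact ⟨mem_univ _, hY, hYX.1.trans hXN, hcon⟩)
      have h2 := Finset.card_lt_card hYX
      omega
    obtain ⟨x₀, hx₀⟩ := hXne
    by_cases hone : X = {x₀}
    · -- splitting off
      rw [hone] at hXk hXN
      have h1 : 0 < (dl src dst {x₀}).card := by
        have := hXN (Finset.mem_singleton_self x₀)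
        simp only [N, mem_filter, mem_univ, true_and] at this
        exact this
      have h2 : Even (dl src dst {x₀}).card := by
        by_contra hcon
        rw [Nat.not_even_iff_odd] at hcon
        have := hodd _ hcon
        omega
      obtain ⟨e₁, he₁, e₂, he₂, hne, hgood⟩ := good_pair src dst k hodd x₀ h1 h2
      obtain ⟨src', dst', g1, g2, g3⟩ := split_step src dst k hodd x₀ e₁ e₂ he₁ he₂ hne hgood
      obtain ⟨H', hd, hp⟩ := ih src' dst' (by omega) g2
      exact g3 H' hd hp
    · -- contraction
      obtain ⟨I, hId, hIX, hI⟩ := trees_in src dst k hk X ⟨x₀, hx₀⟩ hXk hsub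
      obtain ⟨H', hd, hp⟩ := ih (fun e => con X x₀ (src e)) (fun e => con X x₀ (dst e)) (by
          -- some edge of `X` is not a loop
          have hlt : nl (fun e => con X x₀ (src e)) (fun e => con X x₀ (dst e)) < nl src dst := by
            unfold nl
            apply Finset.card_lt_card
            rw [Finset.ssubset_iff_of_subset]
            · -- a second vertex
              obtain ⟨x₁, hx₁, hx₁0⟩ : ∃ x₁ ∈ X, x₁ ≠ x₀ := by
                by_contra hcon
                push Not at hcon
                apply hone
                rw [Finset.eq_singleton_iff_unique_mem]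
                exact ⟨hx₀, hcon⟩
              obtain ⟨J, hJ, hJp⟩ := hI ⟨0, hk⟩
                (fun v => (if x₀ = v then 1 else 0) + (if x₁ = v then 1 else 0)) (by
                  intro v hv
                  have a : x₀ ≠ v := fun h => hv (h ▸ hx₀)
                  have b : x₁ ≠ v := fun h => hv (h ▸ hx₁)
                  simp [a, b]) (by
                  rw [Finset.sum_add_distrib, Finset.sum_ite_eq, Finset.sum_ite_eq, if_pos hx₀,
                    if_pos hx₁, z2])
              obtain ⟨e, heJ, hne⟩ : ∃ e ∈ J, src e ≠ dst e := by
                by_contra hcon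
                push Not at hcon
                have h1 := hJp x₀
                have h2 : par src dst J x₀ = 0 := by
                  unfold par
                  apply Finset.sum_eq_zero
                  intro e he
                  simp only [hcon e he, z2]
                rw [h2, if_pos rfl, if_neg hx₁0] at h1
                exact absurd h1 (by decide)
              refine ⟨e, ?_, ?_⟩
              · rw [mem_filter]
                exact ⟨mem_univ _, hne⟩
              · rw [mem_filter]
                rintro ⟨-, h⟩
                apply h
                have h3 := hIX _ e (hJ heJ)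
                simp only [con, if_pos h3.1, if_pos h3.2]
            · intro e he
              rw [mem_filter] at he ⊢
              refine ⟨mem_univ _, fun h => he.2 ?_⟩
              simp only [h]
          omega) (by
          intro Z hZ
          rw [dl_con] at hZ ⊢
          exact hodd _ hZ)
      exact contract_step src dst k X x₀ hx₀ I hId hIX hI H' hd hp

theorem packing (k : ℕ) (src dst : E → V)
    (hodd : ∀ X : Finset V, Odd (dl src dst X).card → 2 * k + 1 ≤ (dl src dst X).card) :
    ∃ H : Fin k → Finset E, (∀ i j, i ≠ j → Disjoint (H i) (H j)) ∧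
      ∀ i v, par src dst (H i) v = par src dst univ v := by
  rcases Nat.eq_zero_or_pos k with hk | hk
  · subst hk
    exact ⟨fun i => i.elim0, fun i => i.elim0, fun i => i.elim0⟩
  · exact packing_pos k hk (nl src dst) src dst le_rfl hodd

/-- If the number of the parity subgraphs is even, then the remaining edges form another one. -/
theorem packing_odd (k : ℕ) (src dst : E → V)
    (hodd : ∀ X : Finset V, Odd (dl src dst X).card → 2 * k + 1 ≤ (dl src dst X).card) :
    ∃ m : ℕ, k ≤ m ∧ Odd m ∧ ∃ H : Fin m → Finset E, (∀ i j, i ≠ j → Disjoint (H i) (H j)) ∧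
      ∀ i v, par src dst (H i) v = par src dst univ v := by
  classical
  obtain ⟨H, hd, hp⟩ := packing k src dst hodd
  by_cases hk : Odd k
  · exact ⟨k, le_rfl, hk, H, hd, hp⟩
  rw [Nat.not_odd_iff_even] at hk
  let R : Finset E := univ \ (univ.biUnion H)
  have hR : ∀ i, Disjoint R (H i) := by
    intro i
    rw [Finset.disjoint_left]
    intro e h1 h2
    simp only [R, mem_sdiff, mem_biUnion, mem_univ, true_and, not_exists] at h1
    exact h1 i h2
  have hRp : ∀ v, par src dst R v = par src dst univ v := by
    intro v
    have h1 : par src dst univ v = par src dst R v + par src dst (univ.biUnion H) v := by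
      rw [← par_union]
      · congr 1
        simp only [R]
        rw [Finset.sdiff_union_of_subset (Finset.subset_univ _)]
      · rw [Finset.disjoint_biUnion_right]
        intro i _
        exact hR i
    have h2 : par src dst (univ.biUnion H) v = 0 := by
      have h3 : par src dst (univ.biUnion H) v = ∑ i, par src dst (H i) v := by
        unfold par
        rw [Finset.sum_biUnion]
        intro i _ j _ hij
        exact hd i j hij
      rw [h3]
      simp only [hp]
      rw [Finset.sum_const, Finset.card_univ, Fintype.card_fin]
      obtain ⟨r, hr⟩ := hk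
      rw [hr, add_nsmul, z2]
    rw [h1, h2, add_zero]
  refine ⟨k + 1, Nat.le_succ k, hk.add_one, Fin.cons R H, ?_, ?_⟩
  · intro i j hij
    refine Fin.cases ?_ (fun i => ?_) i (motive := fun i => i ≠ j → Disjoint
      ((Fin.cons R H : Fin (k + 1) → Finset E) i) ((Fin.cons R H : Fin (k + 1) → Finset E) j)) hij
    · refine Fin.cases ?_ (fun j => ?_) j (motive := fun j => (0 : Fin (k + 1)) ≠ j → Disjoint
        ((Fin.cons R H : Fin (k + 1) → Finset E) 0) ((Fin.cons R H : Fin (k + 1) → Finset E) j))
      · intro h
        exact absurd rfl h
      · intro _
        rw [Fin.cons_zero, Fin.cons_succ]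
        exact hR j
    · refine Fin.cases ?_ (fun j => ?_) j (motive := fun j => (i.succ : Fin (k + 1)) ≠ j → Disjoint
        ((Fin.cons R H : Fin (k + 1) → Finset E) i.succ)
        ((Fin.cons R H : Fin (k + 1) → Finset E) j))
      · intro _
        rw [Fin.cons_zero, Fin.cons_succ]
        exact (hR i).symm
      · intro h
        rw [Fin.cons_succ, Fin.cons_succ]
        exact hd i j (fun h' => h (by rw [h']))
  · intro i v
    refine Fin.cases ?_ (fun i => ?_) i (motive := fun i => par src dst
      ((Fin.cons R H : Fin (k + 1) → Finset E) i) v = par src dst univ v)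
    · rw [Fin.cons_zero]
      exact hRp v
    · rw [Fin.cons_succ]
      exact hp i v

end Pool.Agent.Helper43K9.PS
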