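import Pool.Agent.Helper43K9.PS.Cuts

/-!
Splitting off a pair of edges at a vertex of even degree.
-/

set_option autoImplicit false
set_option linter.unusedSectionVars false
set_option linter.unusedDecidableInType false
set_option linter.unusedFintypeInType false

namespace Pool.Agent.Helper43K9.PS

open Finset

variable {V E : Type} [Fintype V] [DecidableEq V] [Fintype E] [DecidableEq E]

/-- Splitting off: a vertex `v` of positive even degree has two edges which can be split off. -/
theorem good_pair (src dst : E → V) (k : ℕ)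
    (hodd : ∀ X : Finset V, Odd (dl src dst X).card → 2 * k + 1 ≤ (dl src dst X).card)
    (v : V) (hv0 : 0 < (dl src dst {v}).card) (hv : Even (dl src dst {v}).card) :
    ∃ e₁ ∈ dl src dst {v}, ∃ e₂ ∈ dl src dst {v}, e₁ ≠ e₂ ∧
      ∀ X : Finset V, v ∉ X → (src e₁ ∈ X ∨ dst e₁ ∈ X) → (src e₂ ∈ X ∨ dst e₂ ∈ X) →
        Odd (dl src dst X).card → 2 * k + 3 ≤ (dl src dst X).card := by
  classical
  obtain ⟨e₁, he₁⟩ := Finset.card_pos.1 hv0
  by_contra hcon
  push Not at hcon
  -- tight sets
  let tight : Finset V → Prop := fun X => v ∉ X ∧ (src e₁ ∈ X ∨ dst e₁ ∈ X) ∧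
    (dl src dst X).card = 2 * k + 1
  have hbad : ∀ e₂ ∈ dl src dst {v}, e₁ ≠ e₂ → ∃ X, tight X ∧ (src e₂ ∈ X ∨ dst e₂ ∈ X) := by
    intro e₂ he₂ hne
    obtain ⟨X, h1, h2, h3, h4, h5⟩ := hcon e₁ he₁ e₂ he₂ hne
    refine ⟨X, ⟨h1, h2, ?_⟩, h3⟩
    have h6 := hodd X h4
    obtain ⟨m, hm⟩ := h4
    omega
  have hmem : ∀ e, e ∈ dl src dst {v} ↔ (src e = v ∧ dst e ≠ v) ∨ (src e ≠ v ∧ dst e = v) := by
    intro e
    unfold dl
    simp only [mem_filter, mem_univ, true_and, mem_singleton]
    tauto
  -- a second edge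
  obtain ⟨e₂, he₂, hne⟩ : ∃ e₂ ∈ dl src dst {v}, e₂ ≠ e₁ := by
    apply Finset.exists_mem_ne _ e₁
    obtain ⟨m, hm⟩ := hv
    omega
  obtain ⟨X₀, hX₀, -⟩ := hbad e₂ he₂ hne.symm
  obtain ⟨M, hM, hmax⟩ := Finset.exists_max_image (univ.filter tight) Finset.card
    ⟨X₀, by rw [mem_filter]; exact ⟨mem_univ _, hX₀⟩⟩
  rw [mem_filter] at hM
  obtain ⟨-, hMv, hMx, hMt⟩ := hM
  -- union of tight sets
  have hunion : ∀ X, tight X → tight (X ∪ M) := by
    rintro X ⟨hXv, hXx, hXt⟩
    have hxX : ∀ Z : Finset V, v ∉ Z → (src e₁ ∈ Z ∨ dst e₁ ∈ Z) →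
        ¬ (src e₁ ∈ Z ↔ dst e₁ ∈ Z) := by
      intro Z hZ hZ2 hiff
      rcases (hmem e₁).1 he₁ with ⟨h1, h2⟩ | ⟨h1, h2⟩
      · rw [h1] at hiff hZ2
        tauto
      · rw [h2] at hiff hZ2
        tauto
    have p1 : (dl src dst (X ∩ M)).card + (dl src dst (X ∪ M)).card ≤
        (dl src dst X).card + (dl src dst M).card := by
      simp only [card_dl]
      rw [← Finset.sum_add_distrib, ← Finset.sum_add_distrib]
      refine Finset.sum_le_sum fun e _ => ?_
      unfold ct
      simp only [mem_inter, mem_union]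
      by_cases a : src e ∈ X <;> by_cases b : src e ∈ M <;> by_cases c : dst e ∈ X <;>
        by_cases d : dst e ∈ M <;> simp [a, b, c, d]
    have p2 : (dl src dst (X \ M)).card + (dl src dst (M \ X)).card + 2 ≤
        (dl src dst X).card + (dl src dst M).card := by
      simp only [card_dl]
      rw [← Finset.sum_add_distrib, ← Finset.sum_add_distrib]
      rw [← Finset.add_sum_erase univ _ (Finset.mem_univ e₁),
        ← Finset.add_sum_erase univ (fun e => ct src dst e X + ct src dst e M)
          (Finset.mem_univ e₁)]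
      have q1 : ∑ x ∈ univ.erase e₁, (ct src dst x (X \ M) + ct src dst x (M \ X)) ≤
          ∑ x ∈ univ.erase e₁, (ct src dst x X + ct src dst x M) := by
        refine Finset.sum_le_sum fun e _ => ?_
        unfold ct
        simp only [mem_sdiff]
        by_cases a : src e ∈ X <;> by_cases b : src e ∈ M <;> by_cases c : dst e ∈ X <;>
          by_cases d : dst e ∈ M <;> simp [a, b, c, d]
      have q2 : ct src dst e₁ (X \ M) + ct src dst e₁ (M \ X) = 0 := by
        unfold ct
        simp only [mem_sdiff]
        have h1 := hxX X hXv hXx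
        have h2 := hxX M hMv hMx
        have h3 : src e₁ = v ∨ dst e₁ = v := by
          rcases (hmem e₁).1 he₁ with ⟨h, -⟩ | ⟨-, h⟩
          · exact Or.inl h
          · exact Or.inr h
        rcases h3 with h3 | h3
        · rw [h3] at h1 h2 ⊢
          have h4 : dst e₁ ∈ X := by tauto
          have h5 : dst e₁ ∈ M := by tauto
          simp [h4, h5, hXv, hMv]
        · rw [h3] at h1 h2 ⊢
          have h4 : src e₁ ∈ X := by tauto
          have h5 : src e₁ ∈ M := by tauto
          simp [h4, h5, hXv, hMv]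
      have q3 : ct src dst e₁ X = 1 := by
        unfold ct
        rw [if_neg (hxX X hXv hXx)]
      have q4 : ct src dst e₁ M = 1 := by
        unfold ct
        rw [if_neg (hxX M hMv hMx)]
      simp only [q3, q4]
      omega
    have par1 : ((dl src dst (X ∩ M)).card + (dl src dst (X ∪ M)).card +
        ((dl src dst X).card + (dl src dst M).card)) % 2 = 0 := by
      rw [← Nat.even_iff]
      simp only [card_dl]
      rw [← Finset.sum_add_distrib, ← Finset.sum_add_distrib, ← Finset.sum_add_distrib]
      apply Finset.even_sum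
      intro e _
      unfold ct
      simp only [mem_inter, mem_union]
      by_cases a : src e ∈ X <;> by_cases b : src e ∈ M <;> by_cases c : dst e ∈ X <;>
        by_cases d : dst e ∈ M <;> simp [a, b, c, d] <;> exact ⟨2, rfl⟩
    have par2 : ((dl src dst (X \ M)).card + (dl src dst (X ∩ M)).card +
        (dl src dst X).card) % 2 = 0 := by
      rw [← Nat.even_iff]
      simp only [card_dl]
      rw [← Finset.sum_add_distrib, ← Finset.sum_add_distrib]
      apply Finset.even_sum
      intro e _
      unfold ct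
      simp only [mem_inter, mem_sdiff]
      by_cases a : src e ∈ X <;> by_cases b : src e ∈ M <;> by_cases c : dst e ∈ X <;>
        by_cases d : dst e ∈ M <;> simp [a, b, c, d]
    have par3 : ((dl src dst (M \ X)).card + (dl src dst (X ∩ M)).card +
        (dl src dst M).card) % 2 = 0 := by
      rw [← Nat.even_iff]
      simp only [card_dl]
      rw [← Finset.sum_add_distrib, ← Finset.sum_add_distrib]
      apply Finset.even_sum
      intro e _
      unfold ct
      simp only [mem_inter, mem_sdiff]
      by_cases a : src e ∈ X <;> by_cases b : src e ∈ M <;> by_cases c : dst e ∈ X <;>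
        by_cases d : dst e ∈ M <;> simp [a, b, c, d]
    have o1 := hodd (X ∩ M)
    have o2 := hodd (X ∪ M)
    have o3 := hodd (X \ M)
    have o4 := hodd (M \ X)
    rw [Nat.odd_iff] at o1 o2 o3 o4
    refine ⟨?_, ?_, ?_⟩
    · rw [mem_union]
      tauto
    · rw [mem_union, mem_union]
      tauto
    · omega
  have hall : ∀ e ∈ dl src dst {v}, src e ∈ M ∨ dst e ∈ M := by
    intro e he
    by_cases h1 : e₁ = e
    · rw [← h1]
      exact hMx
    · obtain ⟨X, hX, hXe⟩ := hbad e he h1
      have h2 := hunion X hX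
      have h3 := hmax (X ∪ M) (by rw [mem_filter]; exact ⟨mem_univ _, h2⟩)
      have h4 : M = X ∪ M := Finset.eq_of_subset_of_card_le Finset.subset_union_right h3
      rw [h4, mem_union, mem_union]
      tauto
  have hfin : (dl src dst (insert v M)).card + (dl src dst {v}).card = (dl src dst M).card := by
    simp only [card_dl]
    rw [← Finset.sum_add_distrib]
    refine Finset.sum_congr rfl fun e _ => ?_
    have h1 := hall e
    rw [hmem] at h1
    unfold ct
    simp only [mem_insert, mem_singleton]
    by_cases a : src e = v <;> by_cases b : dst e = v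
    · simp [a, b]
    · have h2 := h1 (Or.inl ⟨a, b⟩)
      rw [a] at h2
      have h3 : dst e ∈ M := by tauto
      simp [a, b, hMv, h3]
    · have h2 := h1 (Or.inr ⟨a, b⟩)
      rw [b] at h2
      have h3 : src e ∈ M := by tauto
      simp [a, b, hMv, h3]
    · simp [a, b]
  have o := hodd (insert v M)
  rw [Nat.odd_iff] at o
  rw [Nat.even_iff] at hv
  omega

end Pool.Agent.Helper43K9.PS
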