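import Pool.Agent.X42.FlowT2
import Pool.Agent.H825R2.EW.PackM

/-!
`k` disjoint sets of edges, each of which spans all boundaries, in a multigraph whose quotients all
have enough edges (the theorem of Nash-Williams and Tutte, in terms of boundaries).
-/

set_option autoImplicit false
set_option linter.unusedSectionVars false
set_option linter.unusedDecidableInType false
set_option linter.unusedFintypeInType false

namespace Pool.Agent.Helper43K9.PS

open Finset
open Pool.Agent.Helper879.ECD (sp sp_mono mem_sp exists_coeff)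
open Pool.Agent.X42.FlowT2 (vec classes rank_univ Spans)
open Pool.Agent.H825R2.EW (packM)

variable {W E : Type} [Fintype W] [DecidableEq W] [Fintype E] [DecidableEq E]

theorem k_trees [Nonempty W] (k : ℕ) (hk : 1 ≤ k) (src dst : E → W)
    (h : ∀ (c : ℕ) (π : W → Fin c), Function.Surjective π →
      k * c ≤ ((univ : Finset E).filter (fun e => π (src e) ≠ π (dst e))).card + k) :
    ∃ I : Fin k → Finset E, (∀ i j, i ≠ j → Disjoint (I i) (I j)) ∧
      ∀ i, Spans src dst (I i) := by
  classical
  have hall : ∀ b : W → ZMod 2, ∑ v, b v = 0 → b ∈ sp (ZMod 2) (vec src dst) univ := by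
    obtain ⟨c, π, hπ, hπ2, -⟩ := classes (sp (ZMod 2) (vec src dst) univ)
    have h1 := h c π hπ
    have h2 : (univ : Finset E).filter (fun e => π (src e) ≠ π (dst e)) = ∅ := by
      rw [Finset.filter_eq_empty_iff]
      intro e _ hne
      exact hne ((hπ2 _ _).2 (mem_sp (Finset.mem_univ e)))
    rw [h2, Finset.card_empty] at h1
    have hc : c ≤ 1 := by
      by_contra hcon
      have h3 : k * 2 ≤ k * c := Nat.mul_le_mul_left k (by omega)
      omega
    intro b hb
    obtain ⟨x0⟩ := ‹Nonempty W›
    have h3 : b = ∑ u, b u • (Pi.single u 1 + Pi.single x0 1 : W → ZMod 2) := by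
      funext v
      rw [Finset.sum_apply]
      have h4 : ∀ u, (b u • (Pi.single u 1 + Pi.single x0 1 : W → ZMod 2)) v =
          (if v = u then b u else 0) + b u * (Pi.single x0 1 : W → ZMod 2) v := by
        intro u
        rw [Pi.smul_apply, Pi.add_apply, smul_eq_mul, mul_add, Pi.single_apply]
        congr 1
        by_cases h : v = u
        · rw [if_pos h, if_pos h, mul_one]
        · rw [if_neg h, if_neg h, mul_zero]
      simp only [h4]
      rw [Finset.sum_add_distrib, ← Finset.sum_mul, hb, zero_mul, add_zero,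
        Finset.sum_ite_eq univ v, if_pos (Finset.mem_univ v)]
    rw [h3]
    refine Submodule.sum_mem _ fun u _ => Submodule.smul_mem _ _ ?_
    rw [← hπ2]
    apply Fin.ext
    have := (π u).2
    have := (π x0).2
    omega
  obtain ⟨I, hd, hI⟩ := packM (F := ZMod 2) (K := Fin k) (x := fun _ => vec src dst) (by
    intro R
    obtain ⟨c, π, hπ, hπ2, hr⟩ := classes (sp (ZMod 2) (vec src dst) R)
    have h1 := h c π hπ
    have h2 : ((univ : Finset E).filter (fun e => π (src e) ≠ π (dst e))) ⊆ univ \ R := by
      intro e he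
      rw [Finset.mem_filter] at he
      rw [Finset.mem_sdiff]
      refine ⟨Finset.mem_univ _, fun hR => he.2 ((hπ2 _ _).2 (mem_sp hR))⟩
    have h3 := rank_univ src dst
    have h4 := Finset.card_le_card h2
    rw [Finset.sum_const, Finset.sum_const, Finset.card_univ, Fintype.card_fin, smul_eq_mul,
      smul_eq_mul]
    have h5 : Module.finrank (ZMod 2) (sp (ZMod 2) (vec src dst) univ) + 1 ≤
        Module.finrank (ZMod 2) (sp (ZMod 2) (vec src dst) R) + c := h3.trans hr
    have h6 := Nat.mul_le_mul_left k h5
    rw [Nat.mul_add, Nat.mul_add, mul_one] at h6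
    omega)
  refine ⟨I, hd, fun i => ?_⟩
  intro b hb
  have h1 := hall b hb
  have h0 : sp (ZMod 2) (vec src dst) (I i) = sp (ZMod 2) (vec src dst) univ := hI i
  rw [← h0] at h1
  obtain ⟨c, hc⟩ := exists_coeff h1
  refine ⟨c, fun v => ?_⟩
  have h2 := congrFun hc v
  rw [Finset.sum_apply] at h2
  rw [← h2]
  refine Finset.sum_congr rfl fun e _ => ?_
  unfold vec
  rw [Pi.smul_apply, Pi.add_apply, smul_eq_mul, mul_add, Pi.single_apply, Pi.single_apply]
  simp only [mul_ite, mul_one, mul_zero, eq_comm]

end Pool.Agent.Helper43K9.PS
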